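import Mathlib

/-!
Coordinates in `ℝ³`: cross product, triple product, rotations given by the Cayley transform.
-/

namespace Pool.Helper15.Lock

open scoped RealInnerProductSpace

abbrev E3 := EuclideanSpace ℝ (Fin 3)

/-- The cross product. -/
def cr (u v : E3) : E3 :=
  !₂[u 1 * v 2 - u 2 * v 1, u 2 * v 0 - u 0 * v 2, u 0 * v 1 - u 1 * v 0]

@[simp] lemma cr_zero' (u v : E3) : cr u v 0 = u 1 * v 2 - u 2 * v 1 := rfl
@[simp] lemma cr_one' (u v : E3) : cr u v 1 = u 2 * v 0 - u 0 * v 2 := rfl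
@[simp] lemma cr_two' (u v : E3) : cr u v 2 = u 0 * v 1 - u 1 * v 0 := rfl

/-- The triple product `u · (v × w)`. -/
def det3 (u v w : E3) : ℝ :=
  u 0 * (v 1 * w 2 - v 2 * w 1) + u 1 * (v 2 * w 0 - v 0 * w 2) + u 2 * (v 0 * w 1 - v 1 * w 0)

lemma inner_eq (u v : E3) : ⟪u, v⟫ = u 0 * v 0 + u 1 * v 1 + u 2 * v 2 := by
  simp [PiLp.inner_apply, Fin.sum_univ_three]
  ring

lemma norm_sq_eq (u : E3) : ‖u‖ ^ 2 = u 0 ^ 2 + u 1 ^ 2 + u 2 ^ 2 := by
  rw [← real_inner_self_eq_norm_sq, inner_eq]; ring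

lemma ext3 {u v : E3} (h0 : u 0 = v 0) (h1 : u 1 = v 1) (h2 : u 2 = v 2) : u = v := by
  ext i
  fin_cases i
  · exact h0
  · exact h1
  · exact h2

lemma det3_eq_inner (u v w : E3) : det3 u v w = ⟪u, cr v w⟫ := by
  rw [inner_eq]; simp [det3]

lemma cr_add_right (u v w : E3) : cr u (v + w) = cr u v + cr u w := by
  apply ext3 <;> simp <;> ring

lemma cr_smul_right (t : ℝ) (u v : E3) : cr u (t • v) = t • cr u v := by
  apply ext3 <;> simp <;> ring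

lemma cr_add_left (u v w : E3) : cr (u + v) w = cr u w + cr v w := by
  apply ext3 <;> simp <;> ring

lemma cr_smul_left (t : ℝ) (u v : E3) : cr (t • u) v = t • cr u v := by
  apply ext3 <;> simp <;> ring

lemma cr_sub_right (u v w : E3) : cr u (v - w) = cr u v - cr u w := by
  apply ext3 <;> simp <;> ring

lemma norm_sq_cr (u v : E3) : ‖cr u v‖ ^ 2 + ⟪u, v⟫ ^ 2 = ‖u‖ ^ 2 * ‖v‖ ^ 2 := by
  simp only [← real_inner_self_eq_norm_sq, inner_eq, cr_zero', cr_one', cr_two']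
  ring

lemma norm_cr_le (u v : E3) : ‖cr u v‖ ≤ ‖u‖ * ‖v‖ := by
  have h := norm_sq_cr u v
  have h2 : ‖cr u v‖ ^ 2 ≤ (‖u‖ * ‖v‖) ^ 2 := by nlinarith [sq_nonneg ⟪u, v⟫]
  exact (sq_le_sq₀ (norm_nonneg _) (by positivity)).1 h2

lemma continuous_cr {α : Type*} [TopologicalSpace α] {f g : α → E3} (hf : Continuous f)
    (hg : Continuous g) : Continuous fun x => cr (f x) (g x) := by
  unfold cr
  fun_prop

/-- Lagrange expansion of a vector in the frame `e`, `f`, `e × f`. -/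
lemma frame_expand (c e f : E3) :
    ‖cr e f‖ ^ 2 • c = ⟪c, cr e f⟫ • cr e f + ⟪cr c f, cr e f⟫ • e - ⟪cr c e, cr e f⟫ • f := by
  rw [norm_sq_eq]
  apply ext3 <;>
    simp only [inner_eq, PiLp.add_apply, PiLp.sub_apply, PiLp.smul_apply, smul_eq_mul,
      cr_zero', cr_one', cr_two'] <;> ring

/-- Rotation about `c` (Cayley transform of the skew map `2 c × ·`). -/
noncomputable def cay (c v : E3) : E3 :=
  v + (2 / (1 + ⟪c, c⟫)) • (cr c v + cr c (cr c v))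

lemma cay_den_pos (c : E3) : 0 < 1 + ⟪c, c⟫ := by
  have := @real_inner_self_nonneg E3 _ _ c
  linarith

lemma cay_add (c v w : E3) : cay c (v + w) = cay c v + cay c w := by
  simp only [cay, cr_add_right, smul_add]; abel

lemma cay_smul (c : E3) (t : ℝ) (v : E3) : cay c (t • v) = t • cay c v := by
  simp only [cay, cr_smul_right, smul_add]
  simp only [smul_smul, mul_comm]

lemma cay_inner (c v w : E3) : ⟪cay c v, cay c w⟫ = ⟪v, w⟫ := by
  have hpos := cay_den_pos c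
  have hne : 1 + ⟪c, c⟫ ≠ 0 := hpos.ne'
  have key : (1 + ⟪c, c⟫) ^ 2 * ⟪cay c v, cay c w⟫ = (1 + ⟪c, c⟫) ^ 2 * ⟪v, w⟫ := by
    have e1 : ∀ x : E3, (1 + ⟪c, c⟫) • cay c x
        = (1 + ⟪c, c⟫) • x + (2:ℝ) • (cr c x + cr c (cr c x)) := by
      intro x
      rw [cay, smul_add, smul_smul, mul_div_cancel₀ _ hne]
    have e2 : (1 + ⟪c, c⟫) ^ 2 * ⟪cay c v, cay c w⟫
        = ⟪(1 + ⟪c, c⟫) • cay c v, (1 + ⟪c, c⟫) • cay c w⟫ := by
      rw [real_inner_smul_left, real_inner_smul_right]; ring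
    rw [e2, e1, e1]
    simp only [inner_eq, PiLp.add_apply, PiLp.smul_apply, smul_eq_mul, cr_zero', cr_one', cr_two']
    ring
  exact mul_left_cancel₀ (pow_ne_zero 2 hne) key

lemma det3_add_smul (u v w : E3) (r : ℝ) :
    det3 (r • u) (r • v) (r • w) = r ^ 3 * det3 u v w := by
  simp only [det3, PiLp.smul_apply, smul_eq_mul]; ring

lemma cay_det3 (c u v w : E3) : det3 (cay c u) (cay c v) (cay c w) = det3 u v w := by
  have hpos := cay_den_pos c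
  have hne : 1 + ⟪c, c⟫ ≠ 0 := hpos.ne'
  have e1 : ∀ x : E3, (1 + ⟪c, c⟫) • cay c x
      = (1 + ⟪c, c⟫) • x + (2:ℝ) • (cr c x + cr c (cr c x)) := by
    intro x
    rw [cay, smul_add, smul_smul, mul_div_cancel₀ _ hne]
  have key : (1 + ⟪c, c⟫) ^ 3 * det3 (cay c u) (cay c v) (cay c w)
      = (1 + ⟪c, c⟫) ^ 3 * det3 u v w := by
    rw [← det3_add_smul (cay c u) (cay c v) (cay c w), e1, e1, e1]
    simp only [det3, inner_eq, PiLp.add_apply, PiLp.smul_apply, smul_eq_mul, cr_zero', cr_one',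
      cr_two']
    ring
  exact mul_left_cancel₀ (pow_ne_zero 3 hne) key

lemma cay_sub_le (c v : E3) : ‖cay c v - v - (2:ℝ) • cr c v‖ ≤ 2 * ‖c‖ ^ 2 * (1 + ‖c‖) * ‖v‖ := by
  have hpos := cay_den_pos c
  have hcc : ⟪c, c⟫ = ‖c‖ ^ 2 := real_inner_self_eq_norm_sq c
  have hd : 0 < 1 + ‖c‖ ^ 2 := by positivity
  have e : cay c v - v - (2:ℝ) • cr c v
      = (-(2 * ‖c‖ ^ 2 / (1 + ‖c‖ ^ 2))) • cr c v + (2 / (1 + ‖c‖ ^ 2)) • cr c (cr c v) := by
    rw [cay, hcc]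
    have h2 : (2:ℝ) / (1 + ‖c‖ ^ 2) - 2 = -(2 * ‖c‖ ^ 2 / (1 + ‖c‖ ^ 2)) := by
      field_simp; ring
    rw [← h2, sub_smul, smul_add]
    abel
  rw [e]
  have h1 := norm_cr_le c v
  have h3 := norm_cr_le c (cr c v)
  have hc0 := norm_nonneg c
  have hv0 := norm_nonneg v
  calc _ ≤ ‖(-(2 * ‖c‖ ^ 2 / (1 + ‖c‖ ^ 2))) • cr c v‖ + ‖(2 / (1 + ‖c‖ ^ 2)) • cr c (cr c v)‖ :=
        norm_add_le _ _
    _ = (2 * ‖c‖ ^ 2 / (1 + ‖c‖ ^ 2)) * ‖cr c v‖ + (2 / (1 + ‖c‖ ^ 2)) * ‖cr c (cr c v)‖ := by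
        rw [norm_smul, norm_smul, norm_neg, Real.norm_of_nonneg (by positivity),
          Real.norm_of_nonneg (by positivity)]
    _ ≤ (2 * ‖c‖ ^ 2) * (‖c‖ * ‖v‖) + 2 * (‖c‖ * (‖c‖ * ‖v‖)) := by
        have a1 : 2 * ‖c‖ ^ 2 / (1 + ‖c‖ ^ 2) ≤ 2 * ‖c‖ ^ 2 := by
          apply div_le_self (by positivity); nlinarith
        have a2 : 2 / (1 + ‖c‖ ^ 2) ≤ 2 := by
          apply div_le_self (by positivity); nlinarith
        have a3 : ‖cr c (cr c v)‖ ≤ ‖c‖ * (‖c‖ * ‖v‖) :=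
          h3.trans (mul_le_mul_of_nonneg_left h1 hc0)
        exact add_le_add (mul_le_mul a1 h1 (norm_nonneg _) (by positivity))
          (mul_le_mul a2 a3 (norm_nonneg _) (by positivity))
    _ = 2 * ‖c‖ ^ 2 * (1 + ‖c‖) * ‖v‖ := by ring

end Pool.Helper15.Lock
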