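import Pool.Agent.Helper15.Lock.Basic

/-!
First-order rigidity implies that small perturbations are locked (compactness argument).
-/

namespace Pool.Helper15.Lock

open scoped RealInnerProductSpace
open Filter Topology

/-- An orientation preserving rigid motion of `ℝ³`. -/
structure Rigid where
  /-- the linear part -/
  R : E3 ≃ₗᵢ[ℝ] E3
  det : ∀ u v w, det3 (R u) (R v) (R w) = det3 u v w
  /-- the translation part -/
  b : E3

namespace Rigid

variable {ι : Type*}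

/-- Action on configurations. -/
noncomputable def act (g : Rigid) (Y : ι → E3) : ι → E3 := fun i => g.R (Y i) + g.b

/-- Inverse action on configurations. -/
noncomputable def back (g : Rigid) (Y : ι → E3) : ι → E3 := fun i => g.R.symm (Y i - g.b)

lemma act_back (g : Rigid) (Y : ι → E3) : g.act (g.back Y) = Y := by
  funext i; simp [act, back]

lemma back_act (g : Rigid) (Y : ι → E3) : g.back (g.act Y) = Y := by
  funext i; simp [act, back]

/-- Composition. -/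
noncomputable def comp (g h : Rigid) : Rigid where
  R := h.R.trans g.R
  det u v w := by
    change det3 (g.R (h.R u)) (g.R (h.R v)) (g.R (h.R w)) = _
    rw [g.det, h.det]
  b := g.R h.b + g.b

lemma act_comp (g h : Rigid) (Y : ι → E3) : (g.comp h).act Y = g.act (h.act Y) := by
  funext i
  simp [act, comp, add_assoc]

lemma dist_act [Fintype ι] (g : Rigid) (Y Z : ι → E3) : dist (g.act Y) (g.act Z) = dist Y Z := by
  simp only [dist_pi_def, act, nndist_add_right, g.R.isometry.nndist_eq]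

lemma det_symm (g : Rigid) (u v w : E3) :
    det3 (g.R.symm u) (g.R.symm v) (g.R.symm w) = det3 u v w := by
  have h := g.det (g.R.symm u) (g.R.symm v) (g.R.symm w)
  simpa using h.symm

/-- The rotation given by the Cayley transform, followed by a translation. -/
noncomputable def ofCay (c b : E3) : Rigid where
  R := LinearIsometry.toLinearIsometryEquiv
    { toFun := cay c
      map_add' := cay_add c
      map_smul' := fun t v => cay_smul c t v
      norm_map' := fun v => by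
        change ‖cay c v‖ = ‖v‖
        rw [← sq_eq_sq₀ (norm_nonneg _) (norm_nonneg _), ← real_inner_self_eq_norm_sq, cay_inner,
          real_inner_self_eq_norm_sq] } rfl
  det u v w := by
    simp only [LinearIsometry.coe_toLinearIsometryEquiv]
    exact cay_det3 c u v w
  b := b

lemma ofCay_act (c b : E3) (Y : ι → E3) (i : ι) : (ofCay c b).act Y i = cay c (Y i) + b := by
  simp [act, ofCay]

end Rigid

variable {ι : Type*}

/-- The orbit of a configuration under the rigid motions. -/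
def orb (X₀ : ι → E3) : Set (ι → E3) := Set.range fun g : Rigid => g.act X₀

lemma infDist_le_of_back [Fintype ι] {X₀ x : ι → E3} (g h : Rigid) :
    Metric.infDist x (orb X₀) ≤ dist (g.back x) (h.act X₀) := by
  have h1 : (g.comp h).act X₀ ∈ orb X₀ := ⟨_, rfl⟩
  have h2 := Metric.infDist_le_dist_of_mem (x := x) h1
  rw [Rigid.act_comp] at h2
  calc _ ≤ _ := h2
    _ = dist (g.act (g.back x)) (g.act (h.act X₀)) := by rw [Rigid.act_back]
    _ = _ := Rigid.dist_act g _ _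

lemma exists_back_of_infDist_lt [Fintype ι] {X₀ x : ι → E3} {r : ℝ}
    (h : Metric.infDist x (orb X₀) < r) : ∃ g : Rigid, dist (g.back x) X₀ < r := by
  have hne : (orb X₀).Nonempty := by
    refine ⟨_, ⟨⟨LinearIsometryEquiv.refl ℝ E3, fun _ _ _ => rfl, 0⟩, rfl⟩⟩
  obtain ⟨y, ⟨g, rfl⟩, hy⟩ := (Metric.infDist_lt_iff hne).1 h
  refine ⟨g, ?_⟩
  rw [← Rigid.dist_act g, Rigid.act_back]
  exact hy

/-- Six times the signed volume of the tetrahedron spanned by two rods. -/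
def vol (p : Fin 4 → ι) (Y : ι → E3) : ℝ :=
  det3 (Y (p 2) - Y (p 0)) (Y (p 1) - Y (p 0)) (Y (p 3) - Y (p 2))

lemma vol_act (p : Fin 4 → ι) (g : Rigid) (Y : ι → E3) : vol p (g.act Y) = vol p Y := by
  have h : ∀ i j, g.act Y i - g.act Y j = g.R (Y i - Y j) := by
    intro i j; simp [Rigid.act]
  simp only [vol, h, g.det]

lemma vol_back (p : Fin 4 → ι) (g : Rigid) (Y : ι → E3) : vol p (g.back Y) = vol p Y := by
  rw [← vol_act p g (g.back Y), Rigid.act_back]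

/-- Displacement of the second rod minus displacement of the first rod at the crossing. -/
def rel (p : Fin 4 → ι) (lam mu : ℝ) (w : ι → E3) : E3 :=
  ((1 - mu) • w (p 2) + mu • w (p 3)) - ((1 - lam) • w (p 0) + lam • w (p 1))

/-- First-order change of the volume. -/
noncomputable def dvol (X₀ : ι → E3) (p : Fin 4 → ι) (lam mu : ℝ) (w : ι → E3) : ℝ :=
  ⟪rel p lam mu w, cr (X₀ (p 1) - X₀ (p 0)) (X₀ (p 3) - X₀ (p 2))⟫

lemma vol_eq_rel (p : Fin 4 → ι) (lam mu : ℝ) (Y : ι → E3) :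
    vol p Y = ⟪rel p lam mu Y, cr (Y (p 1) - Y (p 0)) (Y (p 3) - Y (p 2))⟫ := by
  simp only [vol, rel, det3, inner_eq, PiLp.add_apply, PiLp.sub_apply, PiLp.smul_apply,
    smul_eq_mul, cr_zero', cr_one', cr_two']
  ring

lemma vol_perturb {X₀ : ι → E3} {p : Fin 4 → ι} {lam mu : ℝ} (h0 : rel p lam mu X₀ = 0) (r : ℝ)
    (w : ι → E3) :
    vol p (X₀ + r • w) = r * ⟪rel p lam mu w,
      cr (X₀ (p 1) - X₀ (p 0) + r • (w (p 1) - w (p 0)))
        (X₀ (p 3) - X₀ (p 2) + r • (w (p 3) - w (p 2)))⟫ := by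
  rw [vol_eq_rel p lam mu]
  have e1 : rel p lam mu (X₀ + r • w) = r • rel p lam mu w := by
    have : rel p lam mu (X₀ + r • w) = rel p lam mu X₀ + r • rel p lam mu w := by
      simp only [rel, Pi.add_apply, Pi.smul_apply]
      module
    rw [this, h0, zero_add]
  rw [e1, real_inner_smul_left]
  have e2 : (X₀ + r • w) (p 1) - (X₀ + r • w) (p 0)
      = X₀ (p 1) - X₀ (p 0) + r • (w (p 1) - w (p 0)) := by
    simp only [Pi.add_apply, Pi.smul_apply]; module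
  have e3 : (X₀ + r • w) (p 3) - (X₀ + r • w) (p 2)
      = X₀ (p 3) - X₀ (p 2) + r • (w (p 3) - w (p 2)) := by
    simp only [Pi.add_apply, Pi.smul_apply]; module
  rw [e2, e3]

/-- Near a transversal interior crossing, vanishing volume forces the rods to meet. -/
lemma exists_meet {ι : Type*} [Fintype ι] {X₀ : ι → E3} {p : Fin 4 → ι} {lam mu : ℝ}
    (hlam : lam ∈ Set.Ioo (0:ℝ) 1) (hmu : mu ∈ Set.Ioo (0:ℝ) 1) (h0 : rel p lam mu X₀ = 0)
    (hn : cr (X₀ (p 1) - X₀ (p 0)) (X₀ (p 3) - X₀ (p 2)) ≠ 0) :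
    ∃ ρ > 0, ∀ Y : ι → E3, dist Y X₀ < ρ → vol p Y = 0 →
      ¬ Disjoint (segment ℝ (Y (p 0)) (Y (p 1))) (segment ℝ (Y (p 2)) (Y (p 3))) := by
  set e : (ι → E3) → E3 := fun Y => Y (p 1) - Y (p 0) with he
  set f : (ι → E3) → E3 := fun Y => Y (p 3) - Y (p 2) with hf
  set c : (ι → E3) → E3 := fun Y => Y (p 2) - Y (p 0) with hc
  have hec : Continuous e := by fun_prop
  have hfc : Continuous f := by fun_prop
  have hcc : Continuous c := by fun_prop
  set n : (ι → E3) → E3 := fun Y => cr (e Y) (f Y) with hndef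
  have hnc : Continuous n := continuous_cr hec hfc
  have hn0 : n X₀ ≠ 0 := hn
  set L : (ι → E3) → ℝ := fun Y => ⟪cr (c Y) (f Y), n Y⟫ / ‖n Y‖ ^ 2 with hL
  set M : (ι → E3) → ℝ := fun Y => ⟪cr (c Y) (e Y), n Y⟫ / ‖n Y‖ ^ 2 with hM
  have hnn : ‖n X₀‖ ^ 2 ≠ 0 := pow_ne_zero 2 (norm_ne_zero_iff.2 hn0)
  have hLc : ContinuousAt L X₀ := by
    apply ContinuousAt.div
    · exact ((continuous_cr hcc hfc).inner hnc).continuousAt
    · exact (hnc.norm.pow 2).continuousAt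
    · exact hnn
  have hMc : ContinuousAt M X₀ := by
    apply ContinuousAt.div
    · exact ((continuous_cr hcc hec).inner hnc).continuousAt
    · exact (hnc.norm.pow 2).continuousAt
    · exact hnn
  have hcX : c X₀ = lam • e X₀ - mu • f X₀ := by
    have h1 : rel p lam mu X₀ = c X₀ + mu • f X₀ - lam • e X₀ := by
      simp only [rel, hc, he, hf]; module
    rw [h1] at h0
    rw [← sub_eq_zero, ← h0]; abel
  have hLX : L X₀ = lam := by
    have h1 : cr (c X₀) (f X₀) = lam • n X₀ := by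
      rw [hcX, hndef]; apply ext3 <;> simp <;> ring
    simp only [hL, h1, real_inner_smul_left, real_inner_self_eq_norm_sq]
    field_simp
  have hMX : M X₀ = mu := by
    have h1 : cr (c X₀) (e X₀) = mu • n X₀ := by
      rw [hcX, hndef]; apply ext3 <;> simp <;> ring
    simp only [hM, h1, real_inner_smul_left, real_inner_self_eq_norm_sq]
    field_simp
  have ev1 : ∀ᶠ Y in 𝓝 X₀, L Y ∈ Set.Ioo (0:ℝ) 1 :=
    hLc.eventually_mem (by rw [hLX]; exact isOpen_Ioo.mem_nhds hlam)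
  have ev2 : ∀ᶠ Y in 𝓝 X₀, M Y ∈ Set.Ioo (0:ℝ) 1 :=
    hMc.eventually_mem (by rw [hMX]; exact isOpen_Ioo.mem_nhds hmu)
  have ev3 : ∀ᶠ Y in 𝓝 X₀, n Y ≠ 0 := hnc.continuousAt.eventually_ne hn0
  obtain ⟨ρ, hρ, hball⟩ := Metric.eventually_nhds_iff.1 (ev1.and (ev2.and ev3))
  refine ⟨ρ, hρ, fun Y hY hv hd => ?_⟩
  obtain ⟨hl, hm, hnY⟩ := hball hY
  have hnY2 : ‖n Y‖ ^ 2 ≠ 0 := pow_ne_zero 2 (norm_ne_zero_iff.2 hnY)
  have hv' : ⟪c Y, n Y⟫ = 0 := by
    rw [← det3_eq_inner]; exact hv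
  have hexp := frame_expand (c Y) (e Y) (f Y)
  change ‖n Y‖ ^ 2 • c Y = ⟪c Y, n Y⟫ • n Y + ⟪cr (c Y) (f Y), n Y⟫ • e Y
    - ⟪cr (c Y) (e Y), n Y⟫ • f Y at hexp
  rw [hv', zero_smul, zero_add] at hexp
  have hcY : c Y = L Y • e Y - M Y • f Y := by
    have h2 : c Y = (‖n Y‖ ^ 2)⁻¹ • (‖n Y‖ ^ 2 • c Y) := by
      rw [smul_smul, inv_mul_cancel₀ hnY2, one_smul]
    rw [h2, hexp, smul_sub, smul_smul, smul_smul]
    simp only [hL, hM, div_eq_inv_mul]
  have hpt : Y (p 0) + L Y • e Y = Y (p 2) + M Y • f Y := by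
    have h3 : Y (p 2) = Y (p 0) + c Y := by simp [hc]
    rw [h3, hcY]; abel
  have hdis := Set.disjoint_left.1 hd
  refine @hdis (Y (p 0) + L Y • e Y) ?_ ?_
  · rw [segment_eq_image']
    exact ⟨L Y, ⟨hl.1.le, hl.2.le⟩, rfl⟩
  · rw [segment_eq_image', hpt]
    exact ⟨M Y, ⟨hm.1.le, hm.2.le⟩, rfl⟩

lemma disjoint_act {g : Rigid} {Y : ι → E3} {i j k l : ι}
    (h : Disjoint (segment ℝ (g.act Y i) (g.act Y j)) (segment ℝ (g.act Y k) (g.act Y l))) :
    Disjoint (segment ℝ (Y i) (Y j)) (segment ℝ (Y k) (Y l)) := by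
  rw [Set.disjoint_left] at h ⊢
  intro a ha hb
  have key : ∀ i j, a ∈ segment ℝ (Y i) (Y j) →
      g.R a + g.b ∈ segment ℝ (g.act Y i) (g.act Y j) := by
    intro i j hh
    rw [segment_eq_image'] at hh ⊢
    obtain ⟨t, ht, rfl⟩ := hh
    refine ⟨t, ht, ?_⟩
    simp only [Rigid.act, map_add, map_smul, map_sub]
    module
  exact h (key _ _ ha) (key _ _ hb)

/-- Near the orbit of `X₀`, disjoint rods have non-zero volume. -/
lemma exists_vol_ne {ι : Type*} [Fintype ι] {X₀ : ι → E3} {p : Fin 4 → ι} {lam mu : ℝ}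
    (hlam : lam ∈ Set.Ioo (0:ℝ) 1) (hmu : mu ∈ Set.Ioo (0:ℝ) 1) (h0 : rel p lam mu X₀ = 0)
    (hn : cr (X₀ (p 1) - X₀ (p 0)) (X₀ (p 3) - X₀ (p 2)) ≠ 0) :
    ∃ ρ > 0, ∀ Y : ι → E3, Metric.infDist Y (orb X₀) < ρ →
      Disjoint (segment ℝ (Y (p 0)) (Y (p 1))) (segment ℝ (Y (p 2)) (Y (p 3))) →
      vol p Y ≠ 0 := by
  obtain ⟨ρ, hρ, h⟩ := exists_meet hlam hmu h0 hn
  refine ⟨ρ, hρ, fun Y hY hd hv => ?_⟩
  obtain ⟨g, hg⟩ := exists_back_of_infDist_lt hY
  refine h (g.back Y) hg (by rw [vol_back]; exact hv) ?_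
  apply disjoint_act (g := g)
  rw [Rigid.act_back]
  exact hd

/-- The first time at which the distance to the orbit reaches `r`. -/
lemma exists_first_time {F : ℝ → ℝ} (hF : ContinuousOn F (Set.Icc 0 1)) {r : ℝ} (h0 : F 0 < r)
    (h1 : ∃ τ ∈ Set.Icc (0:ℝ) 1, r ≤ F τ) :
    ∃ τ ∈ Set.Icc (0:ℝ) 1, F τ = r ∧ ∀ s ∈ Set.Icc 0 τ, F s ≤ r := by
  set S : Set ℝ := {τ ∈ Set.Icc (0:ℝ) 1 | r ≤ F τ} with hS
  have hScl : IsClosed S := hF.preimage_isClosed_of_isClosed isClosed_Icc isClosed_Ici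
  have hScomp : IsCompact S := isCompact_Icc.of_isClosed_subset hScl fun x hx => hx.1
  have hSne : S.Nonempty := by
    obtain ⟨τ, hτ, h⟩ := h1
    exact ⟨τ, hτ, h⟩
  have hmem := hScomp.sInf_mem hSne
  set τ := sInf S with hτ
  have hlt : ∀ s ∈ Set.Icc (0:ℝ) 1, s < τ → F s < r := by
    intro s hs hlt
    by_contra hcon
    have : s ∈ S := ⟨hs, not_lt.1 hcon⟩
    exact absurd (csInf_le hScomp.bddBelow this) (not_le.2 hlt)
  have heq : F τ = r := by
    have hsub : Set.Icc (0:ℝ) τ ⊆ Set.Icc 0 1 := Set.Icc_subset_Icc le_rfl hmem.1.2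
    have hivt := intermediate_value_Icc hmem.1.1 (hF.mono hsub)
    obtain ⟨s, hs, hsr⟩ := hivt ⟨h0.le, hmem.2⟩
    rcases eq_or_lt_of_le hs.2 with h | h
    · rw [← h]; exact hsr
    · exact absurd hsr (hlt s (hsub hs) h).ne
  refine ⟨τ, hmem.1, heq, fun s hs => ?_⟩
  rcases eq_or_lt_of_le hs.2 with h | h
  · rw [h, heq]
  · exact (hlt s ⟨hs.1, hs.2.trans hmem.1.2⟩ h).le

/-- Sign of a continuous nowhere vanishing function. -/
lemma pos_of_ne {F : ℝ → ℝ} {τ : ℝ} (hτ : 0 ≤ τ) (hF : ContinuousOn F (Set.Icc 0 τ))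
    (hne : ∀ s ∈ Set.Icc 0 τ, F s ≠ 0) (h0 : 0 < F 0) : 0 < F τ := by
  by_contra hcon
  obtain ⟨s, hs, hs0⟩ := intermediate_value_Icc' hτ hF ⟨not_lt.1 hcon, h0.le⟩
  exact hne s hs hs0

/-- The normalised displacement at the first time: a single perturbation. -/
lemma exists_step {ι κ ε : Type*} [Fintype ι] {X₀ : ι → E3} {s t : ε → ι} {p : κ → Fin 4 → ι}
    {r : ℝ} (hr : 0 < r) {x : ℝ → ι → E3} (hx : ContinuousOn x (Set.Icc 0 1))
    (hx0 : dist (x 0) X₀ < r)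
    (hlen : ∀ τ ∈ Set.Icc (0:ℝ) 1, ∀ e, dist (x τ (s e)) (x τ (t e)) = dist (x 0 (s e)) (x 0 (t e)))
    (hdis : ∀ τ ∈ Set.Icc (0:ℝ) 1, ∀ k, Disjoint (segment ℝ (x τ (p k 0)) (x τ (p k 1)))
      (segment ℝ (x τ (p k 2)) (x τ (p k 3))))
    (hfar : ∃ τ ∈ Set.Icc (0:ℝ) 1, r ≤ Metric.infDist (x τ) (orb X₀)) :
    ∃ w : ι → E3, ‖w‖ ≤ 1 + r ∧
      (∀ g : Rigid, r ≤ dist (X₀ + r • w) (g.act X₀)) ∧
      (∀ e, dist ((X₀ + r • w) (s e)) ((X₀ + r • w) (t e)) = dist (x 0 (s e)) (x 0 (t e))) ∧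
      (∀ k, (∀ Y : ι → E3, Metric.infDist Y (orb X₀) ≤ r →
        Disjoint (segment ℝ (Y (p k 0)) (Y (p k 1))) (segment ℝ (Y (p k 2)) (Y (p k 3))) →
          vol (p k) Y ≠ 0) → 0 < vol (p k) (x 0) → 0 < vol (p k) (X₀ + r • w)) := by
  have hFc : ContinuousOn (fun τ => Metric.infDist (x τ) (orb X₀)) (Set.Icc 0 1) :=
    (Metric.continuous_infDist_pt (orb X₀)).comp_continuousOn hx
  have hid : X₀ ∈ orb X₀ := by
    refine ⟨⟨LinearIsometryEquiv.refl ℝ E3, fun _ _ _ => rfl, 0⟩, ?_⟩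
    funext i; simp [Rigid.act]
  have hF0 : Metric.infDist (x 0) (orb X₀) < r :=
    (Metric.infDist_le_dist_of_mem hid).trans_lt hx0
  obtain ⟨τ, hτ, hτr, hτle⟩ := exists_first_time hFc hF0 hfar
  have hlt : Metric.infDist (x τ) (orb X₀) < r + r ^ 2 := by
    rw [hτr]; nlinarith
  obtain ⟨g, hg⟩ := exists_back_of_infDist_lt hlt
  refine ⟨r⁻¹ • (g.back (x τ) - X₀), ?_, ?_, ?_, ?_⟩
  · rw [norm_smul, norm_inv, Real.norm_of_nonneg hr.le, ← dist_eq_norm]
    rw [inv_mul_le_iff₀ hr]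
    nlinarith
  all_goals
    have hback : X₀ + r • (r⁻¹ • (g.back (x τ) - X₀)) = g.back (x τ) := by
      rw [smul_smul, mul_inv_cancel₀ hr.ne', one_smul]; abel
    rw [hback]
  · intro h
    rw [← hτr]
    exact infDist_le_of_back g h
  · intro e
    rw [← hlen τ hτ e]
    simp only [Rigid.back, LinearIsometryEquiv.dist_map, dist_sub_right]
  · intro k hk hpos
    rw [vol_back]
    have hsub : Set.Icc (0:ℝ) τ ⊆ Set.Icc 0 1 := Set.Icc_subset_Icc le_rfl hτ.2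
    have hvc : Continuous fun Y : ι → E3 => vol (p k) Y := by
      unfold vol det3; fun_prop
    have hVc : ContinuousOn (fun σ => vol (p k) (x σ)) (Set.Icc 0 τ) :=
      hvc.comp_continuousOn (hx.mono hsub)
    exact pos_of_ne (F := fun σ => vol (p k) (x σ)) hτ.1 hVc (fun σ hσ => hk _ (hτle σ hσ) (hdis σ (hsub hσ) k)) hpos

/-- The first-order volume change, as a continuous function of the scale. -/
noncomputable def gvol (X₀ : ι → E3) (p : Fin 4 → ι) (lam mu r : ℝ) (w : ι → E3) : ℝ :=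
  ⟪rel p lam mu w, cr (X₀ (p 1) - X₀ (p 0) + r • (w (p 1) - w (p 0)))
        (X₀ (p 3) - X₀ (p 2) + r • (w (p 3) - w (p 2)))⟫

lemma gvol_zero (X₀ : ι → E3) (p : Fin 4 → ι) (lam mu : ℝ) (w : ι → E3) :
    gvol X₀ p lam mu 0 w = dvol X₀ p lam mu w := by
  simp [gvol, dvol]

lemma continuous_gvol (X₀ : ι → E3) (p : Fin 4 → ι) (lam mu : ℝ) :
    Continuous fun q : ℝ × (ι → E3) => gvol X₀ p lam mu q.1 q.2 := by
  unfold gvol
  apply Continuous.inner
  · unfold rel; fun_prop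
  · apply continuous_cr <;> fun_prop

lemma tendsto_gvol {X₀ : ι → E3} {p : Fin 4 → ι} {lam mu : ℝ} {r : ℕ → ℝ} {w : ℕ → ι → E3}
    {v : ι → E3} (hr : Tendsto r atTop (𝓝 0)) (hw : Tendsto w atTop (𝓝 v)) :
    Tendsto (fun n => gvol X₀ p lam mu (r n) (w n)) atTop (𝓝 (dvol X₀ p lam mu v)) := by
  have h := ((continuous_gvol X₀ p lam mu).tendsto (0, v)).comp (hr.prodMk_nhds hw)
  simp only [gvol_zero] at h
  exact h

/-- The limit argument. -/
lemma limit_contradiction {ι κ ε : Type*} [Fintype ι] (X₀ u : ι → E3) (s t : ε → ι)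
    (p : κ → Fin 4 → ι) (lam mu : κ → ℝ)
    (hmeet : ∀ k, rel (p k) (lam k) (mu k) X₀ = 0)
    (hne : ∀ k, ∃ ρ > 0, ∀ Y : ι → E3, Metric.infDist Y (orb X₀) < ρ →
      Disjoint (segment ℝ (Y (p k 0)) (Y (p k 1))) (segment ℝ (Y (p k 2)) (Y (p k 3))) →
      vol (p k) Y ≠ 0)
    (hu : ∀ k, 0 < dvol X₀ (p k) (lam k) (mu k) u)
    (hrigid : ∀ v : ι → E3, (∀ e, ⟪X₀ (s e) - X₀ (t e), v (s e) - v (t e)⟫ = 0) →
      (∀ k, 0 ≤ dvol X₀ (p k) (lam k) (mu k) v) → ∃ a b : E3, ∀ i, v i = cr a (X₀ i) + b)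
    (r : ℕ → ℝ) (y w : ℕ → ι → E3) (hr0 : ∀ n, 0 < r n) (hr : Tendsto r atTop (𝓝 0))
    (hy : Tendsto y atTop (𝓝 u)) (hw : ∀ n, ‖w n‖ ≤ 1 + r n)
    (hg : ∀ n, ∀ g : Rigid, r n ≤ dist (X₀ + r n • w n) (g.act X₀))
    (hlen : ∀ n e, dist ((X₀ + r n • w n) (s e)) ((X₀ + r n • w n) (t e))
      = dist ((X₀ + (r n ^ 2) • y n) (s e)) ((X₀ + (r n ^ 2) • y n) (t e)))
    (hvol : ∀ n k, (∀ Y : ι → E3, Metric.infDist Y (orb X₀) ≤ r n →
        Disjoint (segment ℝ (Y (p k 0)) (Y (p k 1))) (segment ℝ (Y (p k 2)) (Y (p k 3))) →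
          vol (p k) Y ≠ 0) → 0 < vol (p k) (X₀ + (r n ^ 2) • y n) →
            0 < vol (p k) (X₀ + r n • w n)) : False := by
  -- extract a limit
  have hev1 : ∀ᶠ n in atTop, r n < 1 := hr.eventually_lt_const one_pos
  obtain ⟨N, hN⟩ := eventually_atTop.1 hev1
  have hball : ∀ n, w (n + N) ∈ Metric.closedBall (0 : ι → E3) 2 := by
    intro n
    rw [mem_closedBall_zero_iff]
    have h1 := hw (n + N)
    have h2 := hN (n + N) (Nat.le_add_left _ _)
    linarith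
  obtain ⟨v, -, φ, hφ, hlim⟩ := (isCompact_closedBall (0 : ι → E3) 2).tendsto_subseq hball
  set ψ : ℕ → ℕ := fun n => φ n + N with hψ
  have hψt : Tendsto ψ atTop atTop := (tendsto_add_atTop_nat N).comp hφ.tendsto_atTop
  have hwv : Tendsto (fun n => w (ψ n)) atTop (𝓝 v) := hlim
  have hrψ : Tendsto (fun n => r (ψ n)) atTop (𝓝 0) := hr.comp hψt
  have hyψ : Tendsto (fun n => y (ψ n)) atTop (𝓝 u) := hy.comp hψt
  have hr2 : Tendsto (fun n => r (ψ n) ^ 2) atTop (𝓝 0) := by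
    simpa using hrψ.pow 2
  -- lengths
  have hlenv : ∀ e, ⟪X₀ (s e) - X₀ (t e), v (s e) - v (t e)⟫ = 0 := by
    intro e
    set a := X₀ (s e) - X₀ (t e) with ha
    have hdw : Tendsto (fun n => w (ψ n) (s e) - w (ψ n) (t e)) atTop (𝓝 (v (s e) - v (t e))) :=
      ((continuous_apply (s e)).tendsto v |>.comp hwv).sub
        ((continuous_apply (t e)).tendsto v |>.comp hwv)
    have hdy : Tendsto (fun n => y (ψ n) (s e) - y (ψ n) (t e)) atTop (𝓝 (u (s e) - u (t e))) :=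
      ((continuous_apply (s e)).tendsto u |>.comp hyψ).sub
        ((continuous_apply (t e)).tendsto u |>.comp hyψ)
    have hL : Tendsto (fun n => ⟪a, w (ψ n) (s e) - w (ψ n) (t e)⟫) atTop
        (𝓝 ⟪a, v (s e) - v (t e)⟫) := tendsto_const_nhds.inner hdw
    have hR : Tendsto (fun n => r (ψ n) * ⟪a, y (ψ n) (s e) - y (ψ n) (t e)⟫
        + r (ψ n) ^ 2 * r (ψ n) * ‖y (ψ n) (s e) - y (ψ n) (t e)‖ ^ 2 / 2
        - r (ψ n) * ‖w (ψ n) (s e) - w (ψ n) (t e)‖ ^ 2 / 2) atTop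
        (𝓝 (0 * ⟪a, u (s e) - u (t e)⟫ + 0 * 0 * ‖u (s e) - u (t e)‖ ^ 2 / 2
          - 0 * ‖v (s e) - v (t e)‖ ^ 2 / 2)) :=
      ((hrψ.mul (tendsto_const_nhds.inner hdy)).add
        (((hr2.mul hrψ).mul (hdy.norm.pow 2)).div_const 2)).sub
          ((hrψ.mul (hdw.norm.pow 2)).div_const 2)
    have heq : (fun n => ⟪a, w (ψ n) (s e) - w (ψ n) (t e)⟫)
        = fun n => r (ψ n) * ⟪a, y (ψ n) (s e) - y (ψ n) (t e)⟫
        + r (ψ n) ^ 2 * r (ψ n) * ‖y (ψ n) (s e) - y (ψ n) (t e)‖ ^ 2 / 2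
        - r (ψ n) * ‖w (ψ n) (s e) - w (ψ n) (t e)‖ ^ 2 / 2 := by
      funext n
      have h := hlen (ψ n) e
      have hrn := hr0 (ψ n)
      set ρ := r (ψ n)
      set δw := w (ψ n) (s e) - w (ψ n) (t e)
      set δy := y (ψ n) (s e) - y (ψ n) (t e)
      rw [dist_eq_norm, dist_eq_norm] at h
      have e1 : (X₀ + ρ • w (ψ n)) (s e) - (X₀ + ρ • w (ψ n)) (t e) = a + ρ • δw := by
        simp only [Pi.add_apply, Pi.smul_apply, a, δw]; module
      have e2 : (X₀ + (ρ ^ 2) • y (ψ n)) (s e) - (X₀ + (ρ ^ 2) • y (ψ n)) (t e)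
          = a + ρ ^ 2 • δy := by
        simp only [Pi.add_apply, Pi.smul_apply, a, δy]; module
      rw [e1, e2] at h
      have h2 : ‖a + ρ • δw‖ ^ 2 = ‖a + ρ ^ 2 • δy‖ ^ 2 := by rw [h]
      rw [norm_add_sq_real, norm_add_sq_real, real_inner_smul_right, real_inner_smul_right,
        norm_smul, norm_smul, Real.norm_of_nonneg hrn.le,
        Real.norm_of_nonneg (by positivity : (0:ℝ) ≤ ρ ^ 2)] at h2
      have h3 : ρ * (⟪a, δw⟫ - (ρ * ⟪a, δy⟫ + ρ ^ 2 * ρ * ‖δy‖ ^ 2 / 2 - ρ * ‖δw‖ ^ 2 / 2)) = 0 := by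
        linarith
      rcases mul_eq_zero.1 h3 with h4 | h4
      · exact absurd h4 hrn.ne'
      · linarith
    rw [heq] at hL
    have := tendsto_nhds_unique hL hR
    simpa using this
  -- volumes
  have hvolv : ∀ k, 0 ≤ dvol X₀ (p k) (lam k) (mu k) v := by
    intro k
    obtain ⟨ρ, hρ, hk⟩ := hne k
    have t1 := tendsto_gvol (X₀ := X₀) (p := p k) (lam := lam k) (mu := mu k) hr2 hyψ
    have t2 := tendsto_gvol (X₀ := X₀) (p := p k) (lam := lam k) (mu := mu k) hrψ hwv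
    have ev1 : ∀ᶠ n in atTop, 0 < gvol X₀ (p k) (lam k) (mu k) (r (ψ n) ^ 2) (y (ψ n)) :=
      t1.eventually_const_lt (hu k)
    have ev2 : ∀ᶠ n in atTop, r (ψ n) < ρ := hrψ.eventually_lt_const hρ
    refine ge_of_tendsto t2 ?_
    filter_upwards [ev1, ev2] with n h1 h2
    have hrn := hr0 (ψ n)
    have h3 : 0 < vol (p k) (X₀ + (r (ψ n) ^ 2) • y (ψ n)) := by
      rw [vol_perturb (hmeet k)]
      exact mul_pos (by positivity) h1
    have h4 := hvol (ψ n) k (fun Y hY => hk Y (hY.trans_lt h2)) h3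
    rw [vol_perturb (hmeet k)] at h4
    exact (pos_of_mul_pos_right h4 hrn.le).le
  obtain ⟨a, b, hab⟩ := hrigid v hlenv hvolv
  -- the contradiction
  set Cc : ℝ := ‖a‖ ^ 2 * (1 + ‖a‖) * ‖X₀‖ with hCc
  have hkey : ∀ᶠ n in atTop, 1 ≤ ‖w (ψ n) - v‖ + Cc * r (ψ n) := by
    have ev1 : ∀ᶠ n in atTop, r (ψ n) < 1 := hrψ.eventually_lt_const one_pos
    filter_upwards [ev1] with n hn1
    have hrn := hr0 (ψ n)
    set ρ := r (ψ n)
    have h1 := hg (ψ n) (Rigid.ofCay ((ρ / 2) • a) (ρ • b))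
    have h2 : dist (X₀ + ρ • w (ψ n)) ((Rigid.ofCay ((ρ / 2) • a) (ρ • b)).act X₀)
        ≤ ρ * ‖w (ψ n) - v‖ + Cc * ρ ^ 2 := by
      rw [dist_pi_le_iff (by positivity)]
      intro i
      rw [dist_eq_norm, Rigid.ofCay_act]
      have e1 : (X₀ + ρ • w (ψ n)) i - (cay ((ρ / 2) • a) (X₀ i) + ρ • b)
          = ρ • (w (ψ n) i - v i)
            - (cay ((ρ / 2) • a) (X₀ i) - X₀ i - (2:ℝ) • cr ((ρ / 2) • a) (X₀ i)) := by
        rw [hab i, cr_smul_left]
        simp only [Pi.add_apply, Pi.smul_apply]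
        module
      rw [e1]
      refine (norm_sub_le _ _).trans (add_le_add ?_ ?_)
      · rw [norm_smul, Real.norm_of_nonneg hrn.le]
        exact mul_le_mul_of_nonneg_left (norm_le_pi_norm (w (ψ n) - v) i) hrn.le
      · refine (cay_sub_le _ _).trans ?_
        rw [norm_smul, Real.norm_of_nonneg (by positivity)]
        have hX : ‖X₀ i‖ ≤ ‖X₀‖ := norm_le_pi_norm X₀ i
        have ha0 := norm_nonneg a
        calc 2 * (ρ / 2 * ‖a‖) ^ 2 * (1 + ρ / 2 * ‖a‖) * ‖X₀ i‖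
            ≤ 2 * (ρ / 2 * ‖a‖) ^ 2 * (1 + ‖a‖) * ‖X₀‖ := by
              apply mul_le_mul _ hX (norm_nonneg _) (by positivity)
              apply mul_le_mul_of_nonneg_left _ (by positivity)
              nlinarith
          _ = (Cc * ρ ^ 2) / 2 := by rw [hCc]; ring
          _ ≤ Cc * ρ ^ 2 := by
              have : 0 ≤ Cc * ρ ^ 2 := by positivity
              linarith
    have h3 : ρ * 1 ≤ ρ * (‖w (ψ n) - v‖ + Cc * ρ) := by
      calc ρ * 1 = ρ := mul_one _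
        _ ≤ _ := h1.trans h2
        _ = _ := by ring
    exact le_of_mul_le_mul_left h3 hrn
  have hlim0 : Tendsto (fun n => ‖w (ψ n) - v‖ + Cc * r (ψ n)) atTop (𝓝 (0 + Cc * 0)) := by
    apply Tendsto.add
    · have := (hwv.sub_const v).norm
      simpa using this
    · exact hrψ.const_mul Cc
  have := ge_of_tendsto hlim0 hkey
  norm_num at this

/-- **First-order rigidity implies locked.** If the only first-order motions of the framework `X₀`
that preserve the rods `s e`, `t e` and the strict first-order crossing order given by the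
displacement `u` are infinitesimal rigid motions, then every configuration `X₀ + d u + O(d²)`
with `d` small stays, along every motion with constant rod lengths and disjoint crossing rods,
within `r₀` of the rigid copies of `X₀`. -/
theorem locked_of_rigid {ι κ ε : Type*} [Fintype ι] (X₀ u : ι → E3) (s t : ε → ι)
    (p : κ → Fin 4 → ι) (lam mu : κ → ℝ)
    (hlam : ∀ k, lam k ∈ Set.Ioo (0:ℝ) 1) (hmu : ∀ k, mu k ∈ Set.Ioo (0:ℝ) 1)
    (hmeet : ∀ k, rel (p k) (lam k) (mu k) X₀ = 0)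
    (hindep : ∀ k, cr (X₀ (p k 1) - X₀ (p k 0)) (X₀ (p k 3) - X₀ (p k 2)) ≠ 0)
    (hu : ∀ k, 0 < dvol X₀ (p k) (lam k) (mu k) u)
    (hrigid : ∀ v : ι → E3, (∀ e, ⟪X₀ (s e) - X₀ (t e), v (s e) - v (t e)⟫ = 0) →
      (∀ k, 0 ≤ dvol X₀ (p k) (lam k) (mu k) v) → ∃ a b : E3, ∀ i, v i = cr a (X₀ i) + b)
    {r₀ C : ℝ} (hr₀ : 0 < r₀) :
    ∃ d₀ > 0, ∀ d, 0 < d → d < d₀ → ∀ x : ℝ → ι → E3, ContinuousOn x (Set.Icc 0 1) →
      (∀ i, ‖x 0 i - (X₀ i + d • u i)‖ ≤ C * d ^ 2) →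
      (∀ τ ∈ Set.Icc (0:ℝ) 1, ∀ e, dist (x τ (s e)) (x τ (t e)) = dist (x 0 (s e)) (x 0 (t e))) →
      (∀ τ ∈ Set.Icc (0:ℝ) 1, ∀ k, Disjoint (segment ℝ (x τ (p k 0)) (x τ (p k 1)))
        (segment ℝ (x τ (p k 2)) (x τ (p k 3)))) →
      ∀ τ ∈ Set.Icc (0:ℝ) 1, ∃ g : Rigid, ∀ i, dist (x τ i) (g.act X₀ i) < r₀ := by
  by_contra hcon
  have hnev : ∀ k, ∃ ρ > 0, ∀ Y : ι → E3, Metric.infDist Y (orb X₀) < ρ →
      Disjoint (segment ℝ (Y (p k 0)) (Y (p k 1))) (segment ℝ (Y (p k 2)) (Y (p k 3))) →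
      vol (p k) Y ≠ 0 := fun k => exists_vol_ne (hlam k) (hmu k) (hmeet k) (hindep k)
  have horb : (orb X₀).Nonempty :=
    ⟨_, ⟨⟨LinearIsometryEquiv.refl ℝ E3, fun _ _ _ => rfl, 0⟩, rfl⟩⟩
  have key : ∀ n : ℕ, ∃ (r : ℝ) (y w : ι → E3), 0 < r ∧ r < 1 / ((n : ℝ) + 1) ∧
      dist y u ≤ |C| * r ^ 2 ∧ ‖w‖ ≤ 1 + r ∧
      (∀ g : Rigid, r ≤ dist (X₀ + r • w) (g.act X₀)) ∧
      (∀ e, dist ((X₀ + r • w) (s e)) ((X₀ + r • w) (t e))
        = dist ((X₀ + (r ^ 2) • y) (s e)) ((X₀ + (r ^ 2) • y) (t e))) ∧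
      (∀ k, (∀ Y : ι → E3, Metric.infDist Y (orb X₀) ≤ r →
        Disjoint (segment ℝ (Y (p k 0)) (Y (p k 1))) (segment ℝ (Y (p k 2)) (Y (p k 3))) →
          vol (p k) Y ≠ 0) → 0 < vol (p k) (X₀ + (r ^ 2) • y) →
            0 < vol (p k) (X₀ + r • w)) := by
    intro n
    -- choose the scale
    set m : ℝ := min (min (1 / ((n : ℝ) + 1)) r₀) (min 1 (1 / (‖u‖ + |C| + 1))) with hm
    have hm0 : 0 < m := by
      refine lt_min (lt_min (by positivity) hr₀) (lt_min one_pos (by positivity))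
    by_contra hno
    apply hcon
    refine ⟨m ^ 2, by positivity, fun d hd hdm x hx hx0 hlen hdis τ hτ => ?_⟩
    by_contra hfar
    apply hno
    set r := Real.sqrt d with hr
    have hr0 : 0 < r := Real.sqrt_pos.2 hd
    have hrr : r ^ 2 = d := Real.sq_sqrt hd.le
    have hrm : r < m := by
      rw [hr, Real.sqrt_lt' hm0]; exact hdm
    have h1 : r < 1 / ((n : ℝ) + 1) := hrm.trans_le ((min_le_left _ _).trans (min_le_left _ _))
    have h2 : r < r₀ := hrm.trans_le ((min_le_left _ _).trans (min_le_right _ _))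
    have h3 : r < 1 := hrm.trans_le ((min_le_right _ _).trans (min_le_left _ _))
    have h4 : r < 1 / (‖u‖ + |C| + 1) := hrm.trans_le ((min_le_right _ _).trans (min_le_right _ _))
    have hpos4 : 0 < ‖u‖ + |C| + 1 := by positivity
    rw [lt_div_iff₀ hpos4] at h4
    have hd1 : d < 1 := by rw [← hrr]; nlinarith
    have hdist0 : dist (x 0) X₀ < r := by
      have hle : dist (x 0) X₀ ≤ d * (‖u‖ + |C|) := by
        rw [dist_pi_le_iff (by positivity)]
        intro i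
        rw [dist_eq_norm]
        have e1 : x 0 i - X₀ i = (x 0 i - (X₀ i + d • u i)) + d • u i := by abel
        rw [e1]
        refine (norm_add_le _ _).trans ?_
        have e2 : ‖x 0 i - (X₀ i + d • u i)‖ ≤ d * |C| := by
          refine (hx0 i).trans ?_
          have : C * d ^ 2 ≤ |C| * d ^ 2 := mul_le_mul_of_nonneg_right (le_abs_self C) (by positivity)
          have h5 : |C| * d ^ 2 ≤ d * |C| := by
            have := abs_nonneg C
            nlinarith [mul_nonneg this hd.le]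
          linarith
        have e3 : ‖d • u i‖ ≤ d * ‖u‖ := by
          rw [norm_smul, Real.norm_of_nonneg hd.le]
          exact mul_le_mul_of_nonneg_left (norm_le_pi_norm u i) hd.le
        linarith
      refine hle.trans_lt ?_
      rw [← hrr]
      have : r * (‖u‖ + |C|) < 1 := by nlinarith
      nlinarith
    have hfar' : ∃ τ ∈ Set.Icc (0:ℝ) 1, r ≤ Metric.infDist (x τ) (orb X₀) := by
      refine ⟨τ, hτ, (Metric.le_infDist horb).2 ?_⟩
      rintro _ ⟨g, rfl⟩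
      by_contra hlt
      apply hfar
      refine ⟨g, fun i => ?_⟩
      exact (dist_le_pi_dist (x τ) (g.act X₀) i).trans_lt ((not_le.1 hlt).trans h2)
    obtain ⟨w, hw, hg, hle, hv⟩ := exists_step (p := p) hr0 hx hdist0 hlen hdis hfar'
    have hy : X₀ + (r ^ 2) • ((r ^ 2)⁻¹ • (x 0 - X₀)) = x 0 := by
      rw [smul_smul, mul_inv_cancel₀ (by positivity), one_smul]; abel
    refine ⟨r, (r ^ 2)⁻¹ • (x 0 - X₀), w, hr0, h1, ?_, hw, hg, ?_, ?_⟩
    · rw [dist_pi_le_iff (by positivity)]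
      intro i
      rw [dist_eq_norm, hrr]
      have e1 : (d⁻¹ • (x 0 - X₀)) i - u i = d⁻¹ • (x 0 i - (X₀ i + d • u i)) := by
        simp only [Pi.smul_apply, Pi.sub_apply]
        rw [← sub_sub, smul_sub d⁻¹ (x 0 i - X₀ i), smul_smul, inv_mul_cancel₀ hd.ne', one_smul]
      rw [e1, norm_smul, norm_inv, Real.norm_of_nonneg hd.le, inv_mul_le_iff₀ hd]
      refine (hx0 i).trans ?_
      have : C * d ^ 2 ≤ |C| * d ^ 2 := mul_le_mul_of_nonneg_right (le_abs_self C) (by positivity)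
      linarith
    · rw [hy]; exact hle
    · rw [hy]; exact hv
  choose r y w hr0 hr1 hy hw hg hlen hvol using key
  have hrt : Tendsto r atTop (𝓝 0) :=
    squeeze_zero (fun n => (hr0 n).le) (fun n => (hr1 n).le) tendsto_one_div_add_atTop_nhds_zero_nat
  have hyt : Tendsto y atTop (𝓝 u) := by
    rw [tendsto_iff_dist_tendsto_zero]
    refine squeeze_zero (fun n => dist_nonneg) hy ?_
    simpa using (hrt.pow 2).const_mul |C|
  exact limit_contradiction X₀ u s t p lam mu hmeet hnev hu hrigid r y w hr0 hrt hyt hw hg hlen hvol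

end Pool.Helper15.Lock
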